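import Mathlib
import Pool.Agent.TH405.CW.Final

set_option autoImplicit false

/-!
# Nowhere-zero 5-flows in graphs of carving width at most seven (MP_974d84_co)

Every bridgeless multigraph of carving width at most `7` has a nowhere-zero 5-flow.

Proof.  Splitting at cuts with two edges and at cut vertices keeps the carving width, so one may
assume that there is no cut vertex and that all edge cuts have at least three edges.  Then there is
a bond carving of the same width, in which at every inner node all three pairs of parts are joined
by edges (Seymour and Thomas; here proved with the potential which adds, over the nodes with parts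
`P, Q, R` such that `P` and `Q` are not joined, the square of the number of vertices of `R`).  Along
such a carving the set of boundary values modulo five of the nowhere-zero flows of each part
contains, after a renumbering of its edges, one of 17 explicit sets (1, 1, 2, 4, 9 sets for 3, 4, 5,
6, 7 boundary edges).  This closure (296742 gluings up to the symmetries of the sets) is evaluated
by the kernel.
-/

namespace Pool.Agent.Results.MP_974d84_co.CarvingWidthSeven

variable {V E : Type}

/-- The edges with exactly one end in `Y`. -/
def boundary [DecidableEq V] [Fintype E] (src dst : E → V) (Y : Finset V) : Finset E :=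
  Finset.univ.filter (fun e => ¬ (src e ∈ Y ↔ dst e ∈ Y))

/-- Kirchhoff's law. -/
def IsFlow [DecidableEq V] [Fintype E] (src dst : E → V) (f : E → ℤ) : Prop :=
  ∀ v : V, ∑ e ∈ Finset.univ.filter (fun e => src e = v), f e
    = ∑ e ∈ Finset.univ.filter (fun e => dst e = v), f e

/-- Rooted binary trees with leaves labelled by vertices. -/
inductive LeafTree (V : Type) : Type
  | leaf (v : V) : LeafTree V
  | node (l r : LeafTree V) : LeafTree V

/-- The labels of the leaves. -/
def LeafTree.labels [DecidableEq V] : LeafTree V → Finset V
  | .leaf v => {v}
  | .node l r => l.labels ∪ r.labels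

/-- Different leaves have different labels, and for every subtree at most `w` edges have exactly one
end among the labels of its leaves. -/
def LeafTree.CarvingOfWidth [DecidableEq V] [Fintype E] (src dst : E → V) (w : ℕ) :
    LeafTree V → Prop
  | .leaf v => (boundary src dst {v}).card ≤ w
  | .node l r => Disjoint l.labels r.labels ∧
      (boundary src dst (l.labels ∪ r.labels)).card ≤ w ∧
      l.CarvingOfWidth src dst w ∧ r.CarvingOfWidth src dst w

theorem isFlow_iff [DecidableEq V] [Fintype E] (src dst : E → V) (f : E → ℤ) :
    IsFlow src dst f ↔
      ∀ v, ∑ e, f e * ((if src e = v then 1 else 0) - (if dst e = v then 1 else 0)) = 0 := by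
  unfold IsFlow
  refine forall_congr' fun v => ?_
  rw [Finset.sum_filter, Finset.sum_filter, ← sub_eq_zero, ← Finset.sum_sub_distrib]
  have : ∀ e, (if src e = v then f e else 0) - (if dst e = v then f e else 0)
      = f e * ((if src e = v then 1 else 0) - (if dst e = v then 1 else 0)) := by
    intro e
    by_cases h1 : src e = v <;> by_cases h2 : dst e = v <;> simp [h1, h2]
  rw [Finset.sum_congr rfl (fun e _ => this e)]

open Pool.Agent.TH405.CW in
/-- The same tree. -/
def conv : LeafTree V → Tr V
  | .leaf v => .leaf v
  | .node l r => .node (conv l) (conv r)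

open Pool.Agent.TH405.CW in
theorem conv_set [DecidableEq V] (T : LeafTree V) : (conv T).set = (T.labels : Set V) := by
  induction T with
  | leaf v => simp [conv, Tr.set, LeafTree.labels]
  | node l r ihl ihr => simp [conv, Tr.set, LeafTree.labels, ihl, ihr]

open Pool.Agent.TH405.CW in
theorem cut_eq [DecidableEq V] [Fintype E] (src dst : E → V) (Y : Finset V) :
    cut src dst (Y : Set V) = boundary src dst Y := by
  ext e
  rw [mem_cut]
  simp [boundary]

open Pool.Agent.TH405.CW in
theorem conv_width [DecidableEq V] [Fintype E] (src dst : E → V) (w : ℕ) (T : LeafTree V)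
    (h : T.CarvingOfWidth src dst w) : (conv T).Nodup ∧ (conv T).Width src dst w := by
  induction T with
  | leaf v =>
    refine ⟨trivial, ?_⟩
    show (cut src dst {v}).card ≤ w
    have h1 : ({v} : Set V) = ((({v} : Finset V)) : Set V) := by simp
    rw [h1, cut_eq]
    exact h
  | node l r ihl ihr =>
    obtain ⟨h1, h2, h3, h4⟩ := h
    obtain ⟨l1, l2⟩ := ihl h3
    obtain ⟨r1, r2⟩ := ihr h4
    refine ⟨⟨?_, l1, r1⟩, ?_, l2, r2⟩
    · rw [conv_set, conv_set, Finset.disjoint_coe]
      exact h1
    · rw [conv_set, conv_set, ← Finset.coe_union, cut_eq]
      exact h2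

theorem result :
    ∀ (V E : Type) [Fintype V] [DecidableEq V] [Fintype E] [DecidableEq E] (src dst : E → V)
      (T : LeafTree V), T.labels = Finset.univ → T.CarvingOfWidth src dst 7 →
      (∀ Y : Finset V, (boundary src dst Y).card ≠ 1) →
      ∃ f : E → ℤ, IsFlow src dst f ∧ ∀ e, 1 ≤ |f e| ∧ |f e| ≤ 4 := by
  intro V E _ _ _ _ src dst T hT hW hb
  obtain ⟨h1, h2⟩ := conv_width src dst 7 T hW
  obtain ⟨F, hF, hF0⟩ := Pool.Agent.TH405.CW.int_five V E src dst (conv T)
    (by rw [conv_set, hT, Finset.coe_univ]) h1 h2 (fun Z => by
      classical
      have h3 := hb (Finset.univ.filter (fun v => v ∈ Z))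
      rw [← cut_eq] at h3
      have h4 : ((Finset.univ.filter (fun v => v ∈ Z) : Finset V) : Set V) = Z := by
        ext v; simp
      rw [h4] at h3
      exact h3)
  exact ⟨F, (isFlow_iff src dst F).mpr hF0, hF⟩

end Pool.Agent.Results.MP_974d84_co.CarvingWidthSeven
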