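import Mathlib
import Pool.Agent.TH362.FF.Final

set_option autoImplicit false

/-!
# Nowhere-zero 5-flows in graphs with at most 31 edge cuts of size three (MP_974d84_co)

Every bridgeless multigraph without 32 pairwise disjoint vertex sets with pairwise different
boundaries of size three has a nowhere-zero 5-flow.  In particular every bridgeless multigraph with
at most 31 edge cuts of size three has a nowhere-zero 5-flow (`few_cuts` below).  There is no
condition on the number of vertices, on the degrees or on the connectivity.

Proof.  Consider a counterexample with the least number of edges among its quotients.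

* Its edge cuts of size three isolate a vertex, and it has no small cuts, loops and digons: the
  number of the extensions of boundary values is a combination of the indicator functions of the
  systems of equations given by the partitions of the boundary (`Net`), which for a boundary with
  three edges is constant on the nowhere-zero values.
* A subgraph of strength at least `5/3` is contractible, by the covering theorem of the starting
  files (`H170/Reg`).  So the graph is sparse, `3 |E| + 6 ≤ 5 |V|`, and if `a` and `b` are the
  numbers of the vertices of degree three and of odd degree at least five, then `5 b + 12 ≤ a`.  So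
  there are at most `34` vertices of odd degree.
* In a counterexample with at most `34` vertices of odd degree and the least number of edges all
  degrees are three (splitting), and there is no circuit with at most seven edges: for `n ≤ 7` a
  combination of the partition functions which vanishes at all boundary values of a circuit of
  length `n` which extend to the circuit vanishes identically (Kochol's method; for `n = 6, 7` by
  certificates which are evaluated by the kernel).
* By Petersen's theorem there is a 2-factor.  Its odd circuits have at least nine vertices, so there
  are at most two of them, and the graph has a nowhere-zero 5-flow by the construction of Jaeger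
  (starting files `H185C`).
-/

namespace Pool.Agent.Results.MP_974d84_co.ThirtyOneThreeCuts

variable {V E : Type}

/-- The edges with exactly one end in `Y`. -/
def boundary [DecidableEq V] [Fintype E] (src dst : E → V) (Y : Finset V) : Finset E :=
  Finset.univ.filter (fun e => ¬ (src e ∈ Y ↔ dst e ∈ Y))

/-- Kirchhoff's law. -/
def IsFlow [DecidableEq V] [Fintype E] (src dst : E → V) (f : E → ℤ) : Prop :=
  ∀ v : V, ∑ e ∈ Finset.univ.filter (fun e => src e = v), f e
    = ∑ e ∈ Finset.univ.filter (fun e => dst e = v), f e

theorem result :
    ∀ (V E : Type) [Fintype V] [DecidableEq V] [Fintype E] [DecidableEq E] (src dst : E → V),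
      (∀ Y : Finset V, (boundary src dst Y).card ≠ 1) →
      (∀ X : Fin 32 → Finset V, (∀ i j, i ≠ j → Disjoint (X i) (X j)) →
        (∀ i j, i ≠ j → boundary src dst (X i) ≠ boundary src dst (X j)) →
        ∃ i, (boundary src dst (X i)).card ≠ 3) →
      ∃ f : E → ℤ, IsFlow src dst f ∧ ∀ e, 1 ≤ |f e| ∧ |f e| ≤ 4 := by
  intro V E _ _ _ _ src dst hb hX
  obtain ⟨f, hf, hf0⟩ := Pool.Agent.TH362.FF.five32 src dst hb hX
  exact ⟨f, hf0, hf⟩

/-- The case of at most 31 edge cuts of size three. -/
theorem few_cuts :
    ∀ (V E : Type) [Fintype V] [DecidableEq V] [Fintype E] [DecidableEq E] (src dst : E → V),
      (∀ Y : Finset V, (boundary src dst Y).card ≠ 1) →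
      ((Finset.univ.image (boundary src dst)).filter (fun C => C.card = 3)).card ≤ 31 →
      ∃ f : E → ℤ, IsFlow src dst f ∧ ∀ e, 1 ≤ |f e| ∧ |f e| ≤ 4 := by
  intro V E _ _ _ _ src dst hb h31
  refine result V E src dst hb fun X _ hX => ?_
  by_contra hcon
  push Not at hcon
  have h32 := Finset.card_le_card_of_injOn (s := (Finset.univ : Finset (Fin 32)))
    (t := (Finset.univ.image (boundary src dst)).filter (fun C => C.card = 3))
    (fun i => boundary src dst (X i))
    (fun i _ => by
      simp only [Finset.coe_filter, Finset.mem_image, Finset.mem_univ, true_and,
        Set.mem_ofPred_eq]
      exact ⟨⟨X i, rfl⟩, hcon i⟩)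
    (fun i _ j _ hij => by
      by_contra hne
      exact hX i j hne hij)
  rw [Finset.card_univ, Fintype.card_fin] at h32
  omega

end Pool.Agent.Results.MP_974d84_co.ThirtyOneThreeCuts
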